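import Pool.Agent.W555.GL.Stm

/-! Project GL (helper555): the rank function (StRk). -/

set_option autoImplicit false

namespace Pool.Agent.W539.GL.RK

open Pool.Agent.W555.GL

inductive Ch {L : Type} [CompleteLattice L] : ℕ → L → L → Prop
  | nil (x : L) : Ch 0 x x
  | cons {n : ℕ} {x y z : L} : x ⋖ y → Ch n y z → Ch (n + 1) x z

section

variable {L : Type} [CompleteLattice L]

theorem Ch.le {n : ℕ} {x y : L} (h : Ch n x y) : x ≤ y := by
  induction h with
  | nil x => exact le_rfl
  | cons h1 _ ih => exact h1.le.trans ih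

theorem Ch.append {n m : ℕ} {x y z : L} (h : Ch n x y) (h' : Ch m y z) : Ch (n + m) x z := by
  induction h with
  | nil x => simpa using h'
  | cons h1 _ ih =>
    have := Ch.cons h1 (ih h')
    rw [show ∀ a b : ℕ, a + 1 + b = a + b + 1 from fun a b => by omega]
    exact this

theorem Ch.zero {x y : L} (h : Ch 0 x y) : x = y := by
  cases h; rfl

theorem Ch.succ {n : ℕ} {x z : L} (h : Ch (n + 1) x z) : ∃ y, x ⋖ y ∧ Ch n y z := by
  cases h with
  | cons h1 h2 => exact ⟨_, h1, h2⟩

theorem Ch.pos_of_lt {n : ℕ} {x y : L} (h : Ch n x y) (hlt : x < y) : ∃ m, n = m + 1 := by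
  cases n with
  | zero => exact absurd h.zero hlt.ne
  | succ m => exact ⟨m, rfl⟩

theorem Ch.height {n : ℕ} {x y : L} (h : Ch n x y) :
    Order.height x + n ≤ Order.height y := by
  induction h with
  | nil x => simp
  | @cons n x y z h1 h2 ih =>
    have : Order.height x + 1 ≤ Order.height y := Order.height_add_one_le h1.lt
    push_cast
    calc Order.height x + ((n : ℕ∞) + 1) = (Order.height x + 1) + n := by ring
      _ ≤ Order.height y + n := by gcongr
      _ ≤ _ := ih

theorem cover [IsUpperModularLattice L] {x a : L} (ha : IsAtom a) (hx : ¬ a ≤ x) :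
    x ⋖ x ⊔ a := by
  have h1 : a ⊓ x ⋖ a := by
    have : a ⊓ x = ⊥ := by
      rcases ha.le_iff.mp (inf_le_left : a ⊓ x ≤ a) with h | h
      · exact h
      · exact absurd (inf_eq_left.mp h) hx
    rw [this]; exact ha.bot_covBy
  have := covBy_sup_of_inf_covBy_left h1
  rwa [sup_comm] at this

theorem gen [IsAtomistic L] {x y : L} (h : x < y) : ∃ a : L, IsAtom a ∧ a ≤ y ∧ ¬ a ≤ x := by
  by_contra hc
  push Not at hc
  have h1 : y ≤ x := by
    have := isLUB_atoms_le y
    exact this.2 (fun a ha => hc a ha.1 ha.2)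
  exact absurd h1 (not_le_of_gt h)

theorem fin {r : ℕ} (hr : Order.height (⊤ : L) = (r : ℕ∞)) (x : L) :
    ∃ n : ℕ, Order.height x = n := by
  have : Order.height x ≤ r := hr ▸ Order.height_mono le_top
  exact ENat.ne_top_iff_exists.mp (ne_top_of_le_ne_top (ENat.natCast_ne_top r) this) |>.imp
    fun _ h => h.symm

theorem exists_ch [IsAtomistic L] [IsUpperModularLattice L] {r : ℕ}
    (hr : Order.height (⊤ : L) = (r : ℕ∞)) :
    ∀ k : ℕ, ∀ u y : L, u ≤ y → Order.height y ≤ Order.height u + k → ∃ n, Ch n u y := by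
  intro k
  induction k with
  | zero =>
    intro u y huy hk
    rcases huy.eq_or_lt with h | h
    · exact ⟨0, h ▸ Ch.nil u⟩
    · exfalso
      obtain ⟨n, hn⟩ := fin hr u
      have := Order.height_add_one_le h
      rw [hn] at this hk
      have h2 := this.trans hk
      norm_cast at h2
      omega
  | succ k ih =>
    intro u y huy hk
    rcases huy.eq_or_lt with h | h
    · exact ⟨0, h ▸ Ch.nil u⟩
    · obtain ⟨a, ha, hay, hau⟩ := gen h
      have hc := cover ha hau
      obtain ⟨n, hn⟩ := ih (u ⊔ a) y (sup_le huy hay) (by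
        have := Order.height_add_one_le hc.lt
        calc Order.height y ≤ Order.height u + ((k + 1 : ℕ) : ℕ∞) := hk
          _ = (Order.height u + 1) + k := by push_cast; ring
          _ ≤ _ := by gcongr)
      exact ⟨n + 1, Ch.cons hc hn⟩

theorem exists_ch' [IsAtomistic L] [IsUpperModularLattice L] {r : ℕ}
    (hr : Order.height (⊤ : L) = (r : ℕ∞)) (u y : L) (h : u ≤ y) : ∃ n, Ch n u y := by
  obtain ⟨k, hk⟩ := fin hr y
  refine exists_ch hr k u y h ?_
  rw [hk]; exact le_add_self

theorem uniq [IsAtomistic L] [IsUpperModularLattice L] {r : ℕ}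
    (hr : Order.height (⊤ : L) = (r : ℕ∞)) :
    ∀ n : ℕ, ∀ b y : L, Ch n b y → ∀ m : ℕ, Ch m b y → m = n := by
  intro n
  induction n with
  | zero =>
    intro b y h m hm
    have hby := h.zero
    subst hby
    cases m with
    | zero => rfl
    | succ m =>
      obtain ⟨z, hz, hz'⟩ := hm.succ
      exact absurd (hz.lt.trans_le hz'.le) (lt_irrefl _)
  | succ n ih =>
    intro b y h m hm
    obtain ⟨z, hz, hzy⟩ := h.succ
    obtain ⟨m', rfl⟩ := hm.pos_of_lt (hz.lt.trans_le hzy.le)
    obtain ⟨w, hw, hwy⟩ := hm.succ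
    by_cases hzw : z = w
    · subst hzw
      rw [ih z y hzy m' hwy]
    · have hinf : z ⊓ w = b := by
        have h1 : b ≤ z ⊓ w := le_inf hz.le hw.le
        have h2 : z ⊓ w < z := by
          refine lt_of_le_of_ne inf_le_left ?_
          intro h3
          have h4 : z ≤ w := inf_eq_left.mp h3
          rcases h4.eq_or_lt with h5 | h5
          · exact hzw h5
          · exact hw.2 hz.lt h5
        rcases h1.eq_or_lt with h3 | h3
        · exact h3.symm
        · exact absurd h2 (hz.2 h3)
      have hzu : z ⋖ z ⊔ w := by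
        have : z ⊓ w ⋖ w := by rw [hinf]; exact hw
        exact covBy_sup_of_inf_covBy_right this
      have hwu : w ⋖ z ⊔ w := by
        have : z ⊓ w ⋖ z := by rw [hinf]; exact hz
        exact covBy_sup_of_inf_covBy_left this
      obtain ⟨k, hk⟩ := exists_ch' hr (z ⊔ w) y (sup_le hzy.le hwy.le)
      have h1 := ih z y hzy (k + 1) (Ch.cons hzu hk)
      have h2 : Ch n w y := h1 ▸ Ch.cons hwu hk
      rw [ih w y h2 m' hwy]

theorem height_eq [IsAtomistic L] [IsUpperModularLattice L] {r : ℕ}
    (hr : Order.height (⊤ : L) = (r : ℕ∞)) :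
    ∀ n : ℕ, ∀ x : L, Ch n ⊥ x → Order.height x = n := by
  intro n
  induction n using Nat.strong_induction_on with
  | _ n ih =>
    intro x hx
    apply le_antisymm
    · rw [Order.height_le_coe_iff]
      intro y hy
      obtain ⟨m, hm⟩ := exists_ch' hr ⊥ y bot_le
      obtain ⟨k, hk⟩ := exists_ch' hr y x hy.le
      obtain ⟨k', rfl⟩ := hk.pos_of_lt hy
      have h1 := uniq hr n ⊥ x hx (m + (k' + 1)) (hm.append hk)
      rw [ih m (by omega) y hm]
      norm_cast
      omega
    · simpa using hx.height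

end

theorem main : StRk := by
  intro L _ _ _ r hr
  refine ⟨fun x => (Order.height x).toNat, ?_⟩
  have key : ∀ x : L, Order.height x = ((Order.height x).toNat : ℕ∞) := by
    intro x
    obtain ⟨n, hn⟩ := fin hr x
    rw [hn]; simp
  refine ⟨?_, ?_, ?_, ?_, ?_⟩
  · simp
  · simp [hr]
  · intro x y hxy
    have h := Order.height_add_one_le hxy
    rw [key x, key y] at h
    norm_cast at h
  · intro x a ha hx
    have hc := cover ha hx
    obtain ⟨n, hn⟩ := exists_ch' hr ⊥ x bot_le
    have h1 := height_eq hr n x hn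
    have h2 := height_eq hr (n + 1) (x ⊔ a) (hn.append (Ch.cons hc (Ch.nil _)))
    show (Order.height (x ⊔ a)).toNat = (Order.height x).toNat + 1
    rw [h1, h2]; simp
  · intro x y h
    exact gen h

end Pool.Agent.W539.GL.RK
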